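import Pool.Agent.R309.UnitSumI

set_option autoImplicit false

namespace Pool.Agent.Results.MP_75c9b5_nt.ExceptionalLengths

open NumberField Pool.Agent.R309.UnitSum

/-- `e` is a vanishing unit sum of length `k` in `K`. -/
def IsVanishing (K : Type) [Field K] (k : ℕ) (e : Fin k → (𝓞 K)ˣ) : Prop :=
  ∑ i, ((e i : (𝓞 K)ˣ) : K) = 0

/-- `e` has no proper vanishing subsum. -/
def NoProperSubsum (K : Type) [Field K] (k : ℕ) (e : Fin k → (𝓞 K)ˣ) : Prop :=
  ∀ I : Finset (Fin k), I.Nonempty → I ≠ Finset.univ → ∑ i ∈ I, ((e i : (𝓞 K)ˣ) : K) ≠ 0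

/-- The least odd `k ≥ 3` for which `K` has a vanishing unit sum of length `k` (`⊤` if none). -/
noncomputable def od (K : Type) [Field K] : ℕ∞ :=
  sInf {x : ℕ∞ | ∃ k : ℕ, x = k ∧ Odd k ∧ 3 ≤ k ∧ ∃ e : Fin k → (𝓞 K)ˣ, IsVanishing K k e}

/-- The least even `k ≥ 4` for which `K` has a vanishing unit sum of length `k` with no proper
vanishing subsum (`⊤` if none). -/
noncomputable def ev (K : Type) [Field K] : ℕ∞ :=
  sInf {x : ℕ∞ | ∃ k : ℕ, x = k ∧ Even k ∧ 4 ≤ k ∧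
    ∃ e : Fin k → (𝓞 K)ˣ, IsVanishing K k e ∧ NoProperSubsum K k e}

/-- `ℓ(K) = min (od K, ev K)`. -/
noncomputable def ell (K : Type) [Field K] : ℕ∞ := min (od K) (ev K)

/-- For every integer `t ∉ {0, 1}` there is a number field `K` with `ℓ(K) = 4 t^4 - 4 t + 2`. -/
theorem result (t : ℤ) (h0 : t ≠ 0) (h1 : t ≠ 1) :
    ∃ (K : Type) (_ : Field K) (_ : NumberField K) (n : ℕ),
      (n : ℤ) = 4 * t ^ 4 - 4 * t + 2 ∧ ell K = (n : ℕ∞) := by
  obtain ⟨b, c, hbc, hb, hc, hb2, hN⟩ := exists_noRel t h0 h1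
  obtain ⟨K, iF, iN, α, hrel, hdiv, hun⟩ := exists_field hb hc hb2 hN
  obtain ⟨n, hn⟩ : ∃ n : ℕ, (n : ℤ) = b + c + 2 := ⟨(b + c + 2).toNat, by omega⟩
  have heven : Even n := by
    have : (b + c) % 4 = 0 := by
      rw [hbc, show 4 * t ^ 4 - 4 * t = 4 * (t ^ 4 - t) by ring]
      omega
    rw [Nat.even_iff]
    omega
  refine ⟨K, iF, iN, n, by rw [hn]; linarith, ?_⟩
  have hod : (n : ℕ∞) ≤ od K := by
    apply le_sInf
    rintro x ⟨k, rfl, hk, hk3, e, he⟩
    have := odd_bound hb hc hdiv hun hk e he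
    exact_mod_cast (show n ≤ k by omega)
  have hev : (n : ℕ∞) ≤ ev K := by
    apply le_sInf
    rintro x ⟨k, rfl, hk, hk4, e, he, hp⟩
    have := even_bound hb hc hdiv hun (show 3 ≤ k by omega) e he hp
    exact_mod_cast (show n ≤ k by omega)
  have hev' : ev K ≤ n := by
    apply sInf_le
    obtain ⟨e, he, hp⟩ := attained hb hc hrel hdiv hn
    exact ⟨n, rfl, heven, by omega, e, he, hp⟩
  unfold ell
  apply le_antisymm
  · exact (min_le_right _ _).trans hev'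
  · exact le_min hod hev

end Pool.Agent.Results.MP_75c9b5_nt.ExceptionalLengths
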